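import Pool.Agent.H110R3.BP2.Core
import Pool.Agent.H207R2.BL.Woodall

/-!
Counting proper colourings of graphs with a distinguished vertex, and of graphs with twins.
-/

set_option autoImplicit false

namespace Pool.Agent.TH592.BL

open Polynomial Pool.Agent.H207R2.BL Pool.Agent.H110R3.BP

section count

open Classical in
/-- indicator of a proposition -/
noncomputable def ind (P : Prop) : ℝ := if P then 1 else 0

theorem ind_t {P : Prop} (h : P) : ind P = 1 := by
  unfold ind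
  rw [if_pos h]

theorem ind_f {P : Prop} (h : ¬ P) : ind P = 0 := by
  unfold ind
  rw [if_neg h]

theorem ind_congr' {P Q : Prop} (h : P ↔ Q) : ind P = ind Q := by
  rw [propext h]

theorem ind_and (P Q : Prop) : ind (P ∧ Q) = ind P * ind Q := by
  by_cases hp : P <;> by_cases hq : Q
  · rw [ind_t ⟨hp, hq⟩, ind_t hp, ind_t hq, mul_one]
  · rw [ind_f (fun h => hq h.2), ind_f hq, mul_zero]
  · rw [ind_f (fun h => hp h.1), ind_f hp, zero_mul]
  · rw [ind_f (fun h => hp h.1), ind_f hp, zero_mul]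

open Classical in
/-- number of proper maps with property `φ` -/
noncomputable def cn {V : Type} [Fintype V] (G : SimpleGraph V) (k : ℕ)
    (φ : (V → Fin k) → Prop) : ℝ :=
  ∑ g : V → Fin k, ind ((∀ x y, G.Adj x y → g x ≠ g y) ∧ φ g)

theorem cn_eval {V : Type} [Fintype V] (G : SimpleGraph V) (p : ℝ[X]) (hp : IsChrom G p) (k : ℕ) :
    p.eval (k : ℝ) = cn G k (fun _ => True) := by
  classical
  rw [hp k]
  have h1 : Nat.card (G.Coloring (Fin k)) =
      Nat.card {g : V → Fin k // ∀ x y, G.Adj x y → g x ≠ g y} :=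
    Nat.card_congr
      { toFun := fun c => ⟨fun v => c v, fun a b h => c.valid h⟩
        invFun := fun g => SimpleGraph.Coloring.mk g.1 (fun {v w} h => g.2 v w h)
        left_inv := fun c => by ext v; rfl
        right_inv := fun g => rfl }
  rw [h1, Nat.card_eq_fintype_card, Fintype.card_subtype, cn, Finset.card_eq_sum_ones,
    Finset.sum_filter]
  push_cast
  refine Finset.sum_congr rfl fun g _ => ?_
  by_cases hg : ∀ x y, G.Adj x y → g x ≠ g y
  · rw [if_pos hg, ind_t ⟨hg, trivial⟩]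
  · rw [if_neg hg, ind_f (fun h => hg h.1)]

theorem cn_split {V : Type} [Fintype V] (G : SimpleGraph V) (k : ℕ) (a b : V) :
    cn G k (fun _ => True) = cn G k (fun g => g a = g b) + cn G k (fun g => g a ≠ g b) := by
  unfold cn
  rw [← Finset.sum_add_distrib]
  refine Finset.sum_congr rfl fun g _ => ?_
  rw [ind_and, ind_and, ind_and, ind_t trivial]
  by_cases h2 : g a = g b
  · rw [ind_t h2, ind_f (not_not.2 h2)]; ring
  · rw [ind_f h2, ind_t h2]; ring

/-- `G` with the additional edge `a b` -/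
def addE {V : Type} (G : SimpleGraph V) (a b : V) : SimpleGraph V where
  Adj x y := G.Adj x y ∨ (a ≠ b ∧ ((x = a ∧ y = b) ∨ (x = b ∧ y = a)))
  symm := ⟨by
    rintro x y (h | ⟨h, ⟨h1, h2⟩ | ⟨h1, h2⟩⟩)
    · exact Or.inl h.symm
    · exact Or.inr ⟨h, Or.inr ⟨h2, h1⟩⟩
    · exact Or.inr ⟨h, Or.inl ⟨h2, h1⟩⟩⟩
  loopless := ⟨by
    rintro x (h | ⟨h, ⟨h1, h2⟩ | ⟨h1, h2⟩⟩)
    · exact G.loopless.irrefl x h
    · exact h (h1.symm.trans h2)
    · exact h (h2.symm.trans h1)⟩

theorem cn_addE {V : Type} [Fintype V] (G : SimpleGraph V) (k : ℕ) (a b : V) (hab : a ≠ b) :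
    cn (addE G a b) k (fun _ => True) = cn G k (fun g => g a ≠ g b) := by
  unfold cn
  refine Finset.sum_congr rfl fun g _ => ?_
  apply ind_congr'
  constructor
  · rintro ⟨h, -⟩
    exact ⟨fun x y hxy => h x y (Or.inl hxy), h a b (Or.inr ⟨hab, Or.inl ⟨rfl, rfl⟩⟩)⟩
  · rintro ⟨h, h'⟩
    refine ⟨?_, trivial⟩
    rintro x y (hxy | ⟨-, ⟨rfl, rfl⟩ | ⟨rfl, rfl⟩⟩)
    · exact h x y hxy
    · exact h'
    · exact fun h0 => h' h0.symm

theorem swap_sum {V : Type} [Fintype V] [DecidableEq V] (c : V) (k : ℕ) (F : (V → Fin k) → ℝ) :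
    (k : ℝ) * ∑ g, F g = ∑ σ : V → Fin k, ∑ y : Fin k, F (Function.update σ c y) := by
  rw [← Fintype.sum_prod_type' (f := fun (σ : V → Fin k) (y : Fin k) => F (Function.update σ c y))]
  let e : (V → Fin k) × Fin k ≃ (V → Fin k) × Fin k :=
    { toFun := fun z => (Function.update z.1 c z.2, z.1 c)
      invFun := fun z => (Function.update z.1 c z.2, z.1 c)
      left_inv := fun z => by simp
      right_inv := fun z => by simp }
  rw [Fintype.sum_equiv e (fun z => F (Function.update z.1 c z.2)) (fun z => F z.1)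
    (fun z => rfl)]
  rw [Fintype.sum_prod_type' (f := fun (σ : V → Fin k) (_ : Fin k) => F σ), Finset.mul_sum]
  refine Finset.sum_congr rfl fun g _ => ?_
  rw [Finset.sum_const, Finset.card_univ, Fintype.card_fin, nsmul_eq_mul]

/-- the graph with the same edges outside `c`, and `c` joined to `S` -/
def reN {V : Type} (G : SimpleGraph V) (c : V) (S : Set V) : SimpleGraph V where
  Adj x y := (x ≠ c ∧ y ≠ c ∧ G.Adj x y) ∨ (x = c ∧ y ≠ c ∧ y ∈ S) ∨ (y = c ∧ x ≠ c ∧ x ∈ S)
  symm := ⟨by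
    rintro x y (⟨h1, h2, h3⟩ | ⟨h1, h2, h3⟩ | ⟨h1, h2, h3⟩)
    · exact Or.inl ⟨h2, h1, h3.symm⟩
    · exact Or.inr (Or.inr ⟨h1, h2, h3⟩)
    · exact Or.inr (Or.inl ⟨h1, h2, h3⟩)⟩
  loopless := ⟨by
    rintro x (⟨h1, h2, h3⟩ | ⟨h1, h2, h3⟩ | ⟨h1, h2, h3⟩)
    · exact G.loopless.irrefl x h3
    · exact h2 h1
    · exact h2 h1⟩

theorem reN_c {V : Type} (G : SimpleGraph V) (c : V) (S : Set V) (hc : c ∉ S) (x : V) :
    (reN G c S).Adj c x ↔ x ∈ S := by
  constructor
  · rintro (⟨h1, h2, h3⟩ | ⟨h1, h2, h3⟩ | ⟨h1, h2, h3⟩)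
    · exact absurd rfl h1
    · exact h3
    · exact absurd rfl h2
  · intro h
    refine Or.inr (Or.inl ⟨rfl, ?_, h⟩)
    rintro rfl
    exact hc h

theorem reN_ne {V : Type} (G : SimpleGraph V) (c : V) (S : Set V) (x y : V) (hx : x ≠ c)
    (hy : y ≠ c) : (reN G c S).Adj x y ↔ G.Adj x y := by
  constructor
  · rintro (⟨h1, h2, h3⟩ | ⟨h1, h2, h3⟩ | ⟨h1, h2, h3⟩)
    · exact h3
    · exact absurd h1 hx
    · exact absurd h1 hy
  · intro h
    exact Or.inl ⟨hx, hy, h⟩

theorem reN_self {V : Type} (G : SimpleGraph V) (c : V) (S : Set V)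
    (hS : ∀ x, G.Adj c x ↔ x ∈ S) : reN G c S = G := by
  ext x y
  constructor
  · rintro (⟨h1, h2, h3⟩ | ⟨h1, h2, h3⟩ | ⟨h1, h2, h3⟩)
    · exact h3
    · subst h1
      exact (hS y).2 h3
    · subst h1
      exact ((hS x).2 h3).symm
  · intro h
    by_cases hx : x = c
    · subst hx
      exact Or.inr (Or.inl ⟨rfl, h.ne.symm, (hS y).1 h⟩)
    · by_cases hy : y = c
      · subst hy
        exact Or.inr (Or.inr ⟨rfl, hx, (hS x).1 h.symm⟩)
      · exact Or.inl ⟨hx, hy, h⟩

open Classical in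
theorem cn_reN {V : Type} [Fintype V] (G : SimpleGraph V) (c : V) (S : Set V) (hc : c ∉ S) (k : ℕ)
    (φ : (V → Fin k) → Prop)
    (hφ : ∀ σ σ' : V → Fin k, (∀ x, x ≠ c → σ x = σ' x) → (φ σ ↔ φ σ')) :
    (k : ℝ) * cn (reN G c S) k φ = ∑ σ : V → Fin k,
      ind ((∀ x y, (reN G c ∅).Adj x y → σ x ≠ σ y) ∧ φ σ) *
        ∑ y : Fin k, ind (∀ x ∈ S, y ≠ σ x) := by
  classical
  unfold cn
  rw [swap_sum c k]
  refine Finset.sum_congr rfl fun σ _ => ?_
  rw [Finset.mul_sum]
  refine Finset.sum_congr rfl fun y _ => ?_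
  rw [← ind_and]
  apply ind_congr'
  rw [hφ (Function.update σ c y) σ (fun x hx => Function.update_of_ne hx _ _)]
  constructor
  · rintro ⟨h, h'⟩
    refine ⟨⟨?_, h'⟩, ?_⟩
    · rintro x z (⟨h1, h2, h3⟩ | ⟨h1, h2, h3⟩ | ⟨h1, h2, h3⟩)
      · have := h x z (Or.inl ⟨h1, h2, h3⟩)
        rwa [Function.update_of_ne h1, Function.update_of_ne h2] at this
      · exact absurd h3 (Set.notMem_empty _)
      · exact absurd h3 (Set.notMem_empty _)
    · intro x hx
      have hxc : x ≠ c := by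
        rintro rfl
        exact hc hx
      have := h c x (Or.inr (Or.inl ⟨rfl, hxc, hx⟩))
      rwa [Function.update_self, Function.update_of_ne hxc] at this
  · rintro ⟨⟨h, h'⟩, h2⟩
    refine ⟨?_, h'⟩
    rintro x z (⟨h1, h2', h3⟩ | ⟨h1, h2', h3⟩ | ⟨h1, h2', h3⟩)
    · rw [Function.update_of_ne h1, Function.update_of_ne h2']
      exact h x z (Or.inl ⟨h1, h2', h3⟩)
    · subst h1
      rw [Function.update_self, Function.update_of_ne h2']
      exact h2 z h3
    · subst h1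
      rw [Function.update_self, Function.update_of_ne h2']
      exact (h2 x h3).symm

theorem card4 {k : ℕ} (a b c d : Fin k) (h1 : a ≠ b) (h2 : b ≠ c) (h3 : c ≠ d) (h4 : d ≠ a) :
    ((Finset.univ.filter (fun y : Fin k => y ≠ a ∧ y ≠ b ∧ y ≠ c ∧ y ≠ d)).card : ℝ) =
      (k : ℝ) - 4 + (if a = c then 1 else 0) + (if b = d then 1 else 0) := by
  have e : (Finset.univ.filter (fun y : Fin k => y ≠ a ∧ y ≠ b ∧ y ≠ c ∧ y ≠ d)) =
      (({a, b, c, d} : Finset (Fin k)))ᶜ := by
    ext y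
    simp
  rw [e, Finset.card_compl, Nat.cast_sub (Finset.card_le_univ _), Fintype.card_fin]
  by_cases hac : a = c
  · subst hac
    by_cases hbd : b = d
    · subst hbd
      have : ({a, b, a, b} : Finset (Fin k)) = {a, b} := by
        ext y; simp <;> tauto
      rw [this, Finset.card_pair h1]
      norm_num <;> ring
    · have : ({a, b, a, d} : Finset (Fin k)) = {a, b, d} := by
        ext y; simp <;> tauto
      rw [this, Finset.card_eq_three.2 ⟨a, b, d, h1, h4.symm, hbd, rfl⟩]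
      simp [hbd] <;> ring
  · by_cases hbd : b = d
    · subst hbd
      have : ({a, b, c, b} : Finset (Fin k)) = {a, b, c} := by
        ext y; simp <;> tauto
      rw [this, Finset.card_eq_three.2 ⟨a, b, c, h1, hac, h2, rfl⟩]
      simp [hac] <;> ring
    · have : ({a, b, c, d} : Finset (Fin k)).card = 4 := by
        rw [Finset.card_insert_of_notMem, Finset.card_insert_of_notMem, Finset.card_pair h3]
        · simp [h2, hbd]
        · simp [h1, hac, h4.symm]
      rw [this]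
      simp [hac, hbd]

theorem card2 {k : ℕ} (a b : Fin k) :
    ((Finset.univ.filter (fun y : Fin k => y ≠ a ∧ y ≠ b)).card : ℝ) =
      if a = b then (k : ℝ) - 1 else (k : ℝ) - 2 := by
  have e : (Finset.univ.filter (fun y : Fin k => y ≠ a ∧ y ≠ b)) =
      (({a, b} : Finset (Fin k)))ᶜ := by
    ext y
    simp
  rw [e, Finset.card_compl, Nat.cast_sub (Finset.card_le_univ _), Fintype.card_fin]
  by_cases h : a = b
  · subst h
    simp
  · rw [Finset.card_pair h, if_neg h]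
    norm_num

theorem sum_ind {k : ℕ} (P : Fin k → Prop) [DecidablePred P] :
    ∑ y : Fin k, ind (P y) = ((Finset.univ.filter P).card : ℝ) := by
  rw [Finset.card_eq_sum_ones, Finset.sum_filter]
  push_cast
  refine Finset.sum_congr rfl fun y _ => ?_
  by_cases h : P y
  · rw [ind_t h, if_pos h]
  · rw [ind_f h, if_neg h]

theorem ind4 {k : ℕ} (a b c d : Fin k) (h1 : a ≠ b) (h2 : b ≠ c) (h3 : c ≠ d) (h4 : d ≠ a) :
    ∑ y : Fin k, ind (y ≠ a ∧ y ≠ b ∧ y ≠ c ∧ y ≠ d) =
      (k : ℝ) - 4 + ind (a = c) + ind (b = d) := by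
  rw [sum_ind, card4 a b c d h1 h2 h3 h4]
  unfold ind
  by_cases hac : a = c <;> by_cases hbd : b = d <;> simp [hac, hbd]

theorem ind2 {k : ℕ} (a b : Fin k) :
    ∑ y : Fin k, ind (y ≠ a ∧ y ≠ b) =
      ind (a = b) * ((k : ℝ) - 1) + ind (a ≠ b) * ((k : ℝ) - 2) := by
  rw [sum_ind, card2 a b]
  by_cases hab : a = b
  · rw [if_pos hab, ind_t hab, ind_f (not_not.2 hab)]; ring
  · rw [if_neg hab, ind_f hab, ind_t hab]; ring

end count

end Pool.Agent.TH592.BL
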