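import Pool.Agent.TH592.BL.Idn

/-!
Straight line drawings: a twin of a vertex of degree two can be added.
-/

set_option autoImplicit false

namespace Pool.Agent.TH592.BL

open Polynomial Pool.Agent.H207R2.BL Pool.Agent.H110R3.BP

section geo

/-- `det (w, x)` -/
def dt (w x : ℝ × ℝ) : ℝ := w.1 * x.2 - w.2 * x.1

theorem dt_comb (w P Q o : ℝ × ℝ) (a b : ℝ) (hab : a + b = 1) :
    dt w (a • P + b • Q - o) = a * dt w (P - o) + b * dt w (Q - o) := by
  have : b = 1 - a := by linarith
  subst this
  simp only [dt, Prod.fst_sub, Prod.snd_sub, Prod.fst_add, Prod.snd_add, Prod.smul_fst,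
    Prod.smul_snd, smul_eq_mul]
  ring

theorem seg_pos (w P Q o x : ℝ × ℝ) (hP : dt w (P - o) = 0) (hQ : 0 < dt w (Q - o))
    (hx : x ∈ openSegment ℝ P Q) : 0 < dt w (x - o) := by
  obtain ⟨a, b, ha, hb, hab, rfl⟩ := hx
  rw [dt_comb w P Q o a b hab, hP]
  have := mul_pos hb hQ
  linarith

theorem seg_neg (w P Q o x : ℝ × ℝ) (hP : dt w (P - o) = 0) (hQ : dt w (Q - o) < 0)
    (hx : x ∈ openSegment ℝ P Q) : dt w (x - o) < 0 := by
  obtain ⟨a, b, ha, hb, hab, rfl⟩ := hx
  rw [dt_comb w P Q o a b hab, hP]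
  have := mul_neg_of_pos_of_neg hb hQ
  linarith

theorem seg_two (w P P' Q o : ℝ × ℝ) (hP : dt w (P - o) = 0) (hP' : dt w (P' - o) = 0)
    (hQ : dt w (Q - o) ≠ 0) (hPP : P ≠ P') :
    Disjoint (openSegment ℝ P Q) (openSegment ℝ P' Q) := by
  rw [Set.disjoint_left]
  rintro x ⟨a, b, ha, hb, hab, hx⟩ ⟨a', b', ha', hb', hab', hx'⟩
  have h1 := dt_comb w P Q o a b hab
  have h2 := dt_comb w P' Q o a' b' hab'
  rw [hx, hP] at h1
  rw [hx', hP'] at h2
  have h3 : b * dt w (Q - o) = b' * dt w (Q - o) := by linarith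
  have h4 : b = b' := mul_right_cancel₀ hQ h3
  have h5 : a = a' := by linarith
  subst h4
  subst h5
  rw [← hx'] at hx
  have h6 : a • P = a • P' := add_right_cancel hx
  exact hPP (smul_right_injective _ (ne_of_gt ha) h6)

/-- two points not on the same ray from `o` are strictly separated by a line through `o` -/
theorem exists_dir (o A B : ℝ × ℝ) (hA : A ≠ o) (hB : B ≠ o) (hAB : A ≠ B)
    (h1 : B ∉ openSegment ℝ o A) (h2 : A ∉ openSegment ℝ o B) :
    ∃ w : ℝ × ℝ, 0 < dt w (A - o) ∧ dt w (B - o) < 0 := by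
  obtain ⟨o1, o2⟩ := o
  obtain ⟨A1, A2⟩ := A
  obtain ⟨B1, B2⟩ := B
  by_cases hD : (A1 - o1) * (B2 - o2) - (A2 - o2) * (B1 - o1) = 0
  · refine ⟨(A2 - o2, -(A1 - o1)), ?_, ?_⟩
    · simp only [dt, Prod.fst_sub, Prod.snd_sub, Prod.mk_sub_mk]
      have : ¬ ((A1 - o1) = 0 ∧ (A2 - o2) = 0) := by
        rintro ⟨h, h'⟩
        apply hA
        ext
        · simp only; linarith
        · simp only; linarith
      by_contra hcon
      push Not at hcon
      apply this
      constructor <;> nlinarith [sq_nonneg (A1 - o1), sq_nonneg (A2 - o2)]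
    · simp only [dt, Prod.mk_sub_mk]
      by_contra hcon
      push Not at hcon
      have hAn : 0 < (A1 - o1) ^ 2 + (A2 - o2) ^ 2 := by
        by_contra hc2
        push Not at hc2
        apply hA
        have e1 : A1 - o1 = 0 := by nlinarith [sq_nonneg (A1 - o1), sq_nonneg (A2 - o2)]
        have e2 : A2 - o2 = 0 := by nlinarith [sq_nonneg (A1 - o1), sq_nonneg (A2 - o2)]
        ext
        · simp only; linarith
        · simp only; linarith
      set κ := ((A1 - o1) * (B1 - o1) + (A2 - o2) * (B2 - o2)) / ((A1 - o1) ^ 2 + (A2 - o2) ^ 2)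
        with hκ
      have hκ0 : 0 ≤ κ := div_nonneg (by nlinarith) hAn.le
      have hk1 : B1 - o1 = κ * (A1 - o1) := by
        rw [hκ]
        field_simp
        linear_combination (-(A2 - o2)) * hD
      have hk2 : B2 - o2 = κ * (A2 - o2) := by
        rw [hκ]
        field_simp
        linear_combination (A1 - o1) * hD
      have hκ1 : 0 < κ := by
        rcases hκ0.lt_or_eq with h | h
        · exact h
        · exfalso
          rw [← h] at hk1 hk2
          apply hB
          ext
          · simp only; linarith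
          · simp only; linarith
      rcases lt_trichotomy κ 1 with h | h | h
      · apply h1
        refine ⟨1 - κ, κ, by linarith, hκ1, by ring, ?_⟩
        ext
        · simp only [Prod.smul_mk, smul_eq_mul, Prod.mk_add_mk]; linarith
        · simp only [Prod.smul_mk, smul_eq_mul, Prod.mk_add_mk]; linarith
      · apply hAB
        rw [h] at hk1 hk2
        ext
        · simp only; linarith
        · simp only; linarith
      · apply h2
        have hi : κ⁻¹ < 1 := inv_lt_one_of_one_lt₀ h
        have hi0 : 0 < κ⁻¹ := inv_pos.2 hκ1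
        refine ⟨1 - κ⁻¹, κ⁻¹, by linarith, hi0, by ring, ?_⟩
        have e1 : κ⁻¹ * (B1 - o1) = A1 - o1 := by rw [hk1]; field_simp
        have e2 : κ⁻¹ * (B2 - o2) = A2 - o2 := by rw [hk2]; field_simp
        ext
        · simp only [Prod.smul_mk, smul_eq_mul, Prod.mk_add_mk]; linarith
        · simp only [Prod.smul_mk, smul_eq_mul, Prod.mk_add_mk]; linarith
  · set D := (A1 - o1) * (B2 - o2) - (A2 - o2) * (B1 - o1) with hDd
    refine ⟨(-D * ((A1 - o1) + (B1 - o1)), -D * ((A2 - o2) + (B2 - o2))), ?_, ?_⟩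
    · simp only [dt, Prod.mk_sub_mk]
      have : -D * ((A1 - o1) + (B1 - o1)) * (A2 - o2) - -D * ((A2 - o2) + (B2 - o2)) * (A1 - o1) =
          D ^ 2 := by
        rw [hDd]; ring
      rw [this]
      positivity
    · simp only [dt, Prod.mk_sub_mk]
      have : -D * ((A1 - o1) + (B1 - o1)) * (B2 - o2) - -D * ((A2 - o2) + (B2 - o2)) * (B1 - o1) =
          -D ^ 2 := by
        rw [hDd]; ring
      rw [this]
      have : 0 < D ^ 2 := by positivity
      linarith

end geo

end Pool.Agent.TH592.BL
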