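import Pool.Agent.TH592.BL.Cnt

/-!
Identities between numbers of colourings: a vertex whose neighbours form a closed walk of length
four, and twins.
-/

set_option autoImplicit false

namespace Pool.Agent.TH592.BL

open Polynomial Pool.Agent.H207R2.BL Pool.Agent.H110R3.BP

section ids

theorem reN_empty_reN {V : Type} (G : SimpleGraph V) (c : V) (S : Set V) (T : Set V) :
    reN (reN G c S) c T = reN G c T := by
  ext x y
  constructor
  · rintro (⟨h1, h2, h3⟩ | h | h)
    · exact Or.inl ⟨h1, h2, (reN_ne G c S x y h1 h2).1 h3⟩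
    · exact Or.inr (Or.inl h)
    · exact Or.inr (Or.inr h)
  · rintro (⟨h1, h2, h3⟩ | h | h)
    · exact Or.inl ⟨h1, h2, (reN_ne G c S x y h1 h2).2 h3⟩
    · exact Or.inr (Or.inl h)
    · exact Or.inr (Or.inr h)

/-- (I1) -/
theorem id1 {V : Type} [Fintype V] (G : SimpleGraph V) (c v1 v2 v3 v4 : V)
    (hN : ∀ x, G.Adj c x ↔ x = v1 ∨ x = v2 ∨ x = v3 ∨ x = v4)
    (h12 : G.Adj v1 v2) (h23 : G.Adj v2 v3) (h34 : G.Adj v3 v4) (h41 : G.Adj v4 v1) (k : ℕ) :
    (k : ℝ) * cn G k (fun _ => True) = ((k : ℝ) - 4) * cn (reN G c ∅) k (fun _ => True) +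
      cn (reN G c ∅) k (fun g => g v1 = g v3) + cn (reN G c ∅) k (fun g => g v2 = g v4) := by
  classical
  have hne : ∀ x, x = v1 ∨ x = v2 ∨ x = v3 ∨ x = v4 → x ≠ c := by
    rintro x hx rfl
    exact G.loopless.irrefl x ((hN x).2 hx)
  have n1 := hne v1 (by simp)
  have n2 := hne v2 (by simp)
  have n3 := hne v3 (by simp)
  have n4 := hne v4 (by simp)
  have e0 : reN G c {v1, v2, v3, v4} = G := reN_self G c _ (fun x => by rw [hN x]; simp)
  have hc : c ∉ ({v1, v2, v3, v4} : Set V) := by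
    intro h
    simp only [Set.mem_insert_iff, Set.mem_singleton_iff] at h
    exact hne c h rfl
  have e1 := cn_reN G c {v1, v2, v3, v4} hc k (fun _ => True) (fun _ _ _ => Iff.rfl)
  rw [e0] at e1
  rw [e1]
  unfold cn
  rw [Finset.mul_sum, ← Finset.sum_add_distrib, ← Finset.sum_add_distrib]
  refine Finset.sum_congr rfl fun σ _ => ?_
  by_cases hp : ∀ x y, (reN G c ∅).Adj x y → σ x ≠ σ y
  · have a1 := hp v1 v2 ((reN_ne G c ∅ _ _ n1 n2).2 h12)
    have a2 := hp v2 v3 ((reN_ne G c ∅ _ _ n2 n3).2 h23)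
    have a3 := hp v3 v4 ((reN_ne G c ∅ _ _ n3 n4).2 h34)
    have a4 := hp v4 v1 ((reN_ne G c ∅ _ _ n4 n1).2 h41)
    have e2 : ∑ y : Fin k, ind (∀ x ∈ ({v1, v2, v3, v4} : Set V), y ≠ σ x) =
        ∑ y : Fin k, ind (y ≠ σ v1 ∧ y ≠ σ v2 ∧ y ≠ σ v3 ∧ y ≠ σ v4) := by
      refine Finset.sum_congr rfl fun y _ => ?_
      apply ind_congr'
      simp
    rw [e2, ind4 _ _ _ _ a1 a2 a3 a4, ind_and, ind_and, ind_and, ind_t hp, ind_t trivial]
    ring
  · rw [ind_f (fun h => hp h.1), ind_f (fun h => hp h.1), ind_f (fun h => hp h.1)]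
    ring

/-- (I2), (I3) -/
theorem id23 {V : Type} [Fintype V] (G : SimpleGraph V) (c a b : V) (ha : a ≠ c) (hb : b ≠ c)
    (k : ℕ) :
    (k : ℝ) * cn (reN G c {a, b}) k (fun g => g a = g b) =
      ((k : ℝ) - 1) * cn (reN G c ∅) k (fun g => g a = g b) := by
  classical
  have hc : c ∉ ({a, b} : Set V) := by
    intro h
    simp only [Set.mem_insert_iff, Set.mem_singleton_iff] at h
    rcases h with h | h
    · exact ha h.symm
    · exact hb h.symm
  have e1 := cn_reN G c {a, b} hc k (fun g => g a = g b) (fun σ σ' h => by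
    rw [h a ha, h b hb])
  rw [e1]
  unfold cn
  rw [Finset.mul_sum]
  refine Finset.sum_congr rfl fun σ _ => ?_
  have e2 : ∑ y : Fin k, ind (∀ x ∈ ({a, b} : Set V), y ≠ σ x) =
      ∑ y : Fin k, ind (y ≠ σ a ∧ y ≠ σ b) := by
    refine Finset.sum_congr rfl fun y _ => ?_
    apply ind_congr'
    simp
  rw [e2, ind2, ind_and]
  by_cases hp : σ a = σ b
  · rw [ind_t hp, ind_f (not_not.2 hp)]
    ring
  · rw [ind_f hp]
    ring

/-- a new vertex joined to `a` and `b` -/
def twin {W : Type} (H : SimpleGraph W) (a b : W) : SimpleGraph (Option W) where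
  Adj x y := (∃ x' y', x = some x' ∧ y = some y' ∧ H.Adj x' y') ∨
    (x = none ∧ (y = some a ∨ y = some b)) ∨ (y = none ∧ (x = some a ∨ x = some b))
  symm := ⟨by
    rintro x y (⟨x', y', h1, h2, h3⟩ | h | h)
    · exact Or.inl ⟨y', x', h2, h1, h3.symm⟩
    · exact Or.inr (Or.inr h)
    · exact Or.inr (Or.inl h)⟩
  loopless := ⟨by
    rintro x (⟨x', y', h1, h2, h3⟩ | ⟨h1, h2 | h2⟩ | ⟨h1, h2 | h2⟩)
    · rw [h1] at h2
      cases h2
      exact H.loopless.irrefl _ h3
    all_goals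
      rw [h1] at h2
      cases h2⟩

theorem twin_some {W : Type} (H : SimpleGraph W) (a b x y : W) :
    (twin H a b).Adj (some x) (some y) ↔ H.Adj x y := by
  constructor
  · rintro (⟨x', y', h1, h2, h3⟩ | ⟨h1, h2⟩ | ⟨h1, h2⟩)
    · cases h1; cases h2; exact h3
    · cases h1
    · cases h1
  · intro h
    exact Or.inl ⟨x, y, rfl, rfl, h⟩

theorem twin_none {W : Type} (H : SimpleGraph W) (a b x : W) :
    (twin H a b).Adj none (some x) ↔ x = a ∨ x = b := by
  constructor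
  · rintro (⟨x', y', h1, h2, h3⟩ | ⟨h1, h2 | h2⟩ | ⟨h1, h2⟩)
    · cases h1
    · cases h2; exact Or.inl rfl
    · cases h2; exact Or.inr rfl
    · cases h1
  · rintro (rfl | rfl)
    · exact Or.inr (Or.inl ⟨rfl, Or.inl rfl⟩)
    · exact Or.inr (Or.inl ⟨rfl, Or.inr rfl⟩)

theorem cn_twin {W : Type} [Fintype W] (H : SimpleGraph W) (a b : W) (k : ℕ)
    (φ : (W → Fin k) → Prop) :
    cn (twin H a b) k (fun g => φ (fun x => g (some x))) =
      cn H k (fun g => φ g ∧ g a = g b) * ((k : ℝ) - 1) +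
      cn H k (fun g => φ g ∧ g a ≠ g b) * ((k : ℝ) - 2) := by
  classical
  unfold cn
  rw [Finset.sum_mul, Finset.sum_mul, ← Finset.sum_add_distrib]
  have hu : ∀ (F : (Option W → Fin k) → ℝ) (I J : Fintype (Option W → Fin k)),
      @Finset.sum _ _ _ (@Finset.univ _ I) F = @Finset.sum _ _ _ (@Finset.univ _ J) F := by
    intro F I J
    rw [Subsingleton.elim I J]
  refine (hu _ _ inferInstance).trans ?_
  rw [Fintype.sum_equiv (Equiv.piOptionEquivProd (β := fun _ : Option W => Fin k)) _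
    (fun z : Fin k × (W → Fin k) => ind ((∀ x y, H.Adj x y → z.2 x ≠ z.2 y) ∧ φ z.2) *
      ind (z.1 ≠ z.2 a ∧ z.1 ≠ z.2 b))]
  · rw [Fintype.sum_prod_type_right]
    refine Finset.sum_congr rfl fun σ _ => ?_
    simp only
    rw [← Finset.mul_sum, ind2, ind_and, ind_and, ind_and, ind_and, ind_and]
    ring
  · intro g
    have e1 : (Equiv.piOptionEquivProd (β := fun _ : Option W => Fin k) g).1 = g none := rfl
    have e2 : (Equiv.piOptionEquivProd (β := fun _ : Option W => Fin k) g).2 =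
      fun x => g (some x) := rfl
    rw [e1, e2, ← ind_and]
    apply ind_congr'
    constructor
    · rintro ⟨h, h'⟩
      exact ⟨⟨fun x y hxy => h _ _ ((twin_some H a b x y).2 hxy), h'⟩,
        h _ _ ((twin_none H a b a).2 (Or.inl rfl)), h _ _ ((twin_none H a b b).2 (Or.inr rfl))⟩
    · rintro ⟨⟨h, h'⟩, h1, h2⟩
      refine ⟨?_, h'⟩
      rintro x y (⟨x', y', rfl, rfl, h3⟩ | ⟨rfl, rfl | rfl⟩ | ⟨rfl, rfl | rfl⟩)
      · exact h _ _ h3
      · exact h1
      · exact h2
      · exact h1.symm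
      · exact h2.symm

theorem cn_congr {V : Type} [Fintype V] (G : SimpleGraph V) (k : ℕ) (φ ψ : (V → Fin k) → Prop)
    (h : ∀ g, φ g ↔ ψ g) : cn G k φ = cn G k ψ := by
  have : φ = ψ := funext fun g => propext (h g)
  rw [this]

theorem cn_false {V : Type} [Fintype V] (G : SimpleGraph V) (k : ℕ) (φ : (V → Fin k) → Prop)
    (h : ∀ g, ¬ φ g) : cn G k φ = 0 := by
  unfold cn
  apply Finset.sum_eq_zero
  intro g _
  rw [ind_f (fun h' => h g h'.2)]

theorem twin_eq {W : Type} [Fintype W] (H : SimpleGraph W) (a b : W) (k : ℕ) :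
    cn (twin H a b) k (fun g => g (some a) = g (some b)) =
      cn H k (fun g => g a = g b) * ((k : ℝ) - 1) := by
  rw [cn_twin H a b k (fun g => g a = g b), cn_congr H k _ (fun g => g a = g b) (fun g => by tauto),
    cn_false H k (fun g => g a = g b ∧ g a ≠ g b) (fun g => by tauto)]
  ring

theorem twin_ne {W : Type} [Fintype W] (H : SimpleGraph W) (a b : W) (k : ℕ) :
    cn (twin H a b) k (fun g => g (some a) ≠ g (some b)) =
      cn H k (fun g => g a ≠ g b) * ((k : ℝ) - 2) := by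
  rw [cn_twin H a b k (fun g => g a ≠ g b),
    cn_false H k (fun g => g a ≠ g b ∧ g a = g b) (fun g => by tauto),
    cn_congr H k (fun g => g a ≠ g b ∧ g a ≠ g b) (fun g => g a ≠ g b) (fun g => by tauto)]
  ring

end ids

end Pool.Agent.TH592.BL
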