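import Pool.Agent.TH592.BL.Main

/-!
Change of the direction in which the special vertex is lowest.
-/

set_option autoImplicit false

namespace Pool.Agent.TH592.BL

open Polynomial Pool.Agent.H207R2.BL Pool.Agent.H110R3.BP

theorem straight_linear {V : Type} {G : SimpleGraph V} {f : V → ℝ × ℝ} (h : IsStraight G f)
    (L : ℝ × ℝ →ₗ[ℝ] ℝ × ℝ) (hL : Function.Injective L) : IsStraight G (fun v => L (f v)) := by
  obtain ⟨s1, s2, s3⟩ := h
  have im : ∀ P Q : ℝ × ℝ, openSegment ℝ (L P) (L Q) = L '' openSegment ℝ P Q := by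
    intro P Q
    exact (image_openSegment ℝ L.toAffineMap P Q).symm
  refine ⟨fun u v huv => s1 (hL huv), ?_, ?_⟩
  · intro u v w huv hw
    rw [im] at hw
    obtain ⟨z, hz, hzw⟩ := hw
    rw [hL hzw] at hz
    exact s2 u v w huv hz
  · intro u v u' v' h1 h2 hne
    rw [im, im]
    exact (Set.disjoint_image_iff hL).2 (s3 u v u' v' h1 h2 hne)

theorem exists_linear (ℓ : ℝ × ℝ →ₗ[ℝ] ℝ) (hℓ : ℓ ≠ 0) :
    ∃ L : ℝ × ℝ →ₗ[ℝ] ℝ × ℝ, Function.Injective L ∧ ∀ p, (L p).2 = ℓ p := by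
  set α := ℓ (1, 0) with hα
  set β := ℓ (0, 1) with hβ
  have hl : ∀ p : ℝ × ℝ, ℓ p = p.1 * α + p.2 * β := by
    intro p
    have e : p = p.1 • ((1 : ℝ), (0 : ℝ)) + p.2 • ((0 : ℝ), (1 : ℝ)) := by
      ext <;> simp
    conv_lhs => rw [e]
    rw [map_add, map_smul, map_smul, smul_eq_mul, smul_eq_mul]
  have h0 : α ^ 2 + β ^ 2 ≠ 0 := by
    intro h
    apply hℓ
    have e1 : α = 0 := by nlinarith [sq_nonneg α, sq_nonneg β]
    have e2 : β = 0 := by nlinarith [sq_nonneg α, sq_nonneg β]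
    refine LinearMap.ext fun p => ?_
    rw [hl p, e1, e2]
    simp
  refine ⟨(β • LinearMap.fst ℝ ℝ ℝ - α • LinearMap.snd ℝ ℝ ℝ).prod ℓ, ?_, fun p => rfl⟩
  rw [← LinearMap.ker_eq_bot, LinearMap.ker_eq_bot']
  rintro ⟨x, y⟩ h
  have h1 : β * x - α * y = 0 := by
    have := congrArg Prod.fst h
    simpa using this
  have h2 : x * α + y * β = 0 := by
    have := congrArg Prod.snd h
    rw [← hl (x, y)]
    simpa using this
  have e1 : (α ^ 2 + β ^ 2) * x = 0 := by linear_combination β * h1 + α * h2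
  have e2 : (α ^ 2 + β ^ 2) * y = 0 := by linear_combination (-α) * h1 + β * h2
  rw [mul_eq_zero] at e1 e2
  rcases e1 with e1 | e1
  · exact absurd e1 h0
  rcases e2 with e2 | e2
  · exact absurd e2 h0
  rw [e1, e2]
  rfl

end Pool.Agent.TH592.BL
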