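import Pool.Agent.TH592.BL.Tw

/-!
Chromatic polynomials of plane graphs which become (nearly) bipartite when an independent set of
vertices whose neighbours form closed walks of length four is deleted.
-/

set_option autoImplicit false

namespace Pool.Agent.TH592.BL

open Polynomial Pool.Agent.H207R2.BL Pool.Agent.H110R3.BP

/-- the data of the induction -/
structure Cfg {V : Type} (G : SimpleGraph V) (f : V → ℝ × ℝ) (U C : Set V) (κ : V → Bool) :
    Prop where
  straight : IsStraight G f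
  low : ∀ u ∈ U, ∀ v, v ≠ u → (f u).2 < (f v).2
  disj : ∀ u ∈ U, u ∉ C
  indep : ∀ x ∈ C, ∀ y ∈ C, ¬ G.Adj x y
  link : ∀ c ∈ C, ∃ v1 v2 v3 v4, (∀ x, G.Adj c x ↔ x = v1 ∨ x = v2 ∨ x = v3 ∨ x = v4) ∧
    G.Adj v1 v2 ∧ G.Adj v2 v3 ∧ G.Adj v3 v4 ∧ G.Adj v4 v1 ∧ ¬ (v1 ∈ U ∧ v3 ∈ U) ∧
    ¬ (v2 ∈ U ∧ v4 ∈ U)
  bip : ∀ x y, G.Adj x y → x ∉ U → x ∉ C → y ∉ U → y ∉ C → κ x ≠ κ y

theorem Cfg.uniq {V : Type} {G : SimpleGraph V} {f : V → ℝ × ℝ} {U C : Set V} {κ : V → Bool}
    (h : Cfg G f U C κ) {x y : V} (hx : x ∈ U) (hy : y ∈ U) : x = y := by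
  by_contra hne
  have h1 := h.low x hx y (Ne.symm hne)
  have h2 := h.low y hy x hne
  linarith

theorem bool_fin (a b : Bool) (h : a ≠ b) :
    (if a then (0 : Fin 2) else 1) ≠ (if b then (0 : Fin 2) else 1) := by
  cases a <;> cases b <;> simp_all

theorem cfg_base {V : Type} [Fintype V] {G : SimpleGraph V} {f : V → ℝ × ℝ} {U C : Set V}
    {κ : V → Bool} (h : Cfg G f U C κ) (hC : C = ∅) (p : ℝ[X]) (hp : IsChrom G p) (q : ℝ)
    (hq : 4 ≤ q) : 0 < p.eval q := by
  subst hC
  by_cases hU : ∃ u, u ∈ U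
  · obtain ⟨u, hu⟩ := hU
    refine Pool.Agent.H110R3.BP2.main_apex G u ?_ f h.straight (h.low u hu) p hp q hq
    refine ⟨SimpleGraph.Coloring.mk (fun x => if κ x.1 then (0 : Fin 2) else 1) ?_⟩
    rintro ⟨x, hx⟩ ⟨y, hy⟩ hxy
    have hxy' : G.Adj x y := by simpa using hxy
    exact bool_fin _ _ (h.bip x y hxy' (fun e => hx (h.uniq e hu)) (Set.notMem_empty _)
      (fun e => hy (h.uniq e hu)) (Set.notMem_empty _))
  · refine main G ?_ f h.straight p hp q hq
    refine ⟨SimpleGraph.Coloring.mk (fun x => if κ x then (0 : Fin 2) else 1) ?_⟩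
    intro x y hxy
    exact bool_fin _ _ (h.bip x y hxy (fun e => hU ⟨x, e⟩) (Set.notMem_empty _)
      (fun e => hU ⟨y, e⟩) (Set.notMem_empty _))

theorem reN_le {V : Type} {G : SimpleGraph V} {c : V} {S : Set V} (hS : ∀ x ∈ S, G.Adj c x)
    {x y : V} (h : (reN G c S).Adj x y) : G.Adj x y := by
  rcases h with ⟨_, _, h3⟩ | ⟨h1, _, h3⟩ | ⟨h1, _, h3⟩
  · exact h3
  · rw [h1]; exact hS y h3
  · rw [h1]; exact (hS x h3).symm

theorem cfg_reN {V : Type} {G : SimpleGraph V} {f : V → ℝ × ℝ} {U C : Set V}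
    {κ : V → Bool} (h : Cfg G f U C κ) (c : V) (hc : c ∈ C) (S : Set V)
    (hS : ∀ x ∈ S, G.Adj c x) (κc : Bool) (hκ : ∀ x ∈ S, x ∉ U → κ x ≠ κc) :
    ∃ κ', Cfg (reN G c S) f U (C \ {c}) κ' := by
  classical
  refine ⟨Function.update κ c κc, ⟨?_, h.low, ?_, ?_, ?_, ?_⟩⟩
  · obtain ⟨s1, s2, s3⟩ := h.straight
    exact ⟨s1, fun u v w huv => s2 u v w (reN_le hS huv),
      fun u v u' v' h1 h2 => s3 u v u' v' (reN_le hS h1) (reN_le hS h2)⟩
  · intro u hu hu'
    exact h.disj u hu hu'.1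
  · intro x hx y hy hxy
    exact h.indep x hx.1 y hy.1 (reN_le hS hxy)
  · intro c' hc'
    obtain ⟨v1, v2, v3, v4, hN, h12, h23, h34, h41, hu1, hu2⟩ := h.link c' hc'.1
    have hcc : c' ≠ c := hc'.2
    have hne : ∀ x, G.Adj c' x → x ≠ c := by
      rintro x hx rfl
      exact h.indep c' hc'.1 x hc hx
    have n1 := hne v1 ((hN v1).2 (by simp))
    have n2 := hne v2 ((hN v2).2 (by simp))
    have n3 := hne v3 ((hN v3).2 (by simp))
    have n4 := hne v4 ((hN v4).2 (by simp))
    refine ⟨v1, v2, v3, v4, ?_, (reN_ne G c S _ _ n1 n2).2 h12, (reN_ne G c S _ _ n2 n3).2 h23,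
      (reN_ne G c S _ _ n3 n4).2 h34, (reN_ne G c S _ _ n4 n1).2 h41, hu1, hu2⟩
    intro x
    by_cases hx : x = c
    · subst hx
      constructor
      · intro h1
        exact absurd (reN_le hS h1) (h.indep c' hc'.1 x hc)
      · rintro (h1 | h1 | h1 | h1)
        · exact absurd h1.symm n1
        · exact absurd h1.symm n2
        · exact absurd h1.symm n3
        · exact absurd h1.symm n4
    · rw [reN_ne G c S c' x hcc hx]
      exact hN x
  · intro x y hxy hxU hxC hyU hyC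
    rcases hxy with ⟨h1, h2, h3⟩ | ⟨h1, h2, h3⟩ | ⟨h1, h2, h3⟩
    · rw [Function.update_of_ne h1, Function.update_of_ne h2]
      exact h.bip x y h3 hxU (fun e => hxC ⟨e, h1⟩) hyU (fun e => hyC ⟨e, h2⟩)
    · subst h1
      rw [Function.update_self, Function.update_of_ne h2]
      exact (hκ y h3 hyU).symm
    · subst h1
      rw [Function.update_self, Function.update_of_ne h2]
      exact hκ x h3 hxU

/-- a vertex of degree two outside `U` and `C` with neighbours outside `C` -/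
structure TD {W : Type} (H : SimpleGraph W) (U C : Set W) (c a b : W) : Prop where
  ne : a ≠ b
  nbr : ∀ x, H.Adj c x ↔ x = a ∨ x = b
  cU : c ∉ U
  cC : c ∉ C
  aC : a ∉ C
  bC : b ∉ C

theorem cfg_twin {W : Type} [Finite W] {H : SimpleGraph W} {f : W → ℝ × ℝ} {U C : Set W}
    {κ : W → Bool} (h : Cfg H f U C κ) (c a b : W) (t : TD H U C c a b) :
    ∃ g κ', Cfg (twin H a b) g (some '' U) (some '' C) κ' ∧
      TD (twin H a b) (some '' U) (some '' C) (none : Option W) (some a) (some b) := by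
  obtain ⟨g, hg1, hg2, hg3⟩ := twin_straight H f h.straight c a b t.ne t.nbr U t.cU h.low
  have ca : a ∉ U → κ c ≠ κ a := fun ha => h.bip c a ((t.nbr a).2 (Or.inl rfl)) t.cU t.cC ha t.aC
  have cb : b ∉ U → κ c ≠ κ b := fun hb => h.bip c b ((t.nbr b).2 (Or.inr rfl)) t.cU t.cC hb t.bC
  have mem : ∀ (S : Set W) (x : W), some x ∈ some '' S ↔ x ∈ S := by
    intro S x
    simp
  have nomem : ∀ (S : Set W), (none : Option W) ∉ some '' S := by
    intro S
    simp
  refine ⟨g, fun o => o.elim (κ c) κ, ⟨hg2, ?_, ?_, ?_, ?_, ?_⟩, ⟨?_, ?_, ?_, ?_, ?_, ?_⟩⟩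
  · rintro _ ⟨u, hu, rfl⟩ (_ | v) hv
    · rw [hg1]; exact hg3 u hu
    · rw [hg1, hg1]
      exact h.low u hu v (fun e => hv (by rw [e]))
  · rintro _ ⟨u, hu, rfl⟩ hu'
    exact h.disj u hu ((mem C u).1 hu')
  · rintro _ ⟨x, hx, rfl⟩ _ ⟨y, hy, rfl⟩ hxy
    exact h.indep x hx y hy ((twin_some H a b x y).1 hxy)
  · rintro _ ⟨c', hc', rfl⟩
    obtain ⟨v1, v2, v3, v4, hN, h12, h23, h34, h41, hu1, hu2⟩ := h.link c' hc'
    refine ⟨some v1, some v2, some v3, some v4, ?_, (twin_some H a b _ _).2 h12,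
      (twin_some H a b _ _).2 h23, (twin_some H a b _ _).2 h34, (twin_some H a b _ _).2 h41, ?_, ?_⟩
    · rintro (_ | x)
      · constructor
        · intro h1
          rcases (twin_none H a b c').1 h1.symm with e | e
          · exact absurd (e ▸ hc') t.aC
          · exact absurd (e ▸ hc') t.bC
        · rintro (h1 | h1 | h1 | h1) <;> cases h1
      · rw [twin_some H a b, hN x]
        simp
    · rw [mem, mem]; exact hu1
    · rw [mem, mem]; exact hu2
  · rintro (_ | x) (_ | y) hxy hxU hxC hyU hyC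
    · exact absurd hxy ((twin H a b).loopless.irrefl _)
    · change κ c ≠ κ y
      rw [mem] at hyU hyC
      rcases (twin_none H a b y).1 hxy with rfl | rfl
      · exact ca hyU
      · exact cb hyU
    · change κ x ≠ κ c
      rw [mem] at hxU hxC
      rcases (twin_none H a b x).1 hxy.symm with rfl | rfl
      · exact (ca hxU).symm
      · exact (cb hxU).symm
    · rw [mem] at hxU hxC hyU hyC
      exact h.bip x y ((twin_some H a b x y).1 hxy) hxU hxC hyU hyC
  · intro e
    exact t.ne (Option.some_injective _ e)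
  · rintro (_ | x)
    · constructor
      · intro h1
        exact absurd h1 ((twin H a b).loopless.irrefl _)
      · rintro (h1 | h1) <;> cases h1
    · rw [twin_none H a b x]
      simp
  · exact nomem U
  · exact nomem C
  · rw [mem]; exact t.aC
  · rw [mem]; exact t.bC

/-- the induction hypothesis -/
def IHyp (q : ℝ) (n : ℕ) : Prop :=
  ∀ (V : Type) (_ : Fintype V) (G : SimpleGraph V) (f : V → ℝ × ℝ) (U C : Set V) (κ : V → Bool),
    Cfg G f U C κ → C.ncard = n → ∀ p : ℝ[X], IsChrom G p → 0 < p.eval q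

theorem twins_seq {W : Type} [Fintype W] {H : SimpleGraph W} {f : W → ℝ × ℝ} {U C : Set W}
    {κ : W → Bool} (h : Cfg H f U C κ) (c a b : W) (t : TD H U C c a b) (m : ℕ) :
    ∃ (W' : Type) (_ : Fintype W') (H' : SimpleGraph W') (f' : W' → ℝ × ℝ) (U' C' : Set W')
      (κ' : W' → Bool) (c' a' b' : W'), Cfg H' f' U' C' κ' ∧ TD H' U' C' c' a' b' ∧
      C'.ncard = C.ncard ∧ (∀ k : ℕ, cn H' k (fun g => g a' = g b') =
        cn H k (fun g => g a = g b) * ((k : ℝ) - 1) ^ m) ∧
      (∀ k : ℕ, cn H' k (fun g => g a' ≠ g b') =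
        cn H k (fun g => g a ≠ g b) * ((k : ℝ) - 2) ^ m) := by
  induction m with
  | zero =>
    refine ⟨W, inferInstance, H, f, U, C, κ, c, a, b, h, t, rfl, ?_, ?_⟩
    · intro k; rw [pow_zero, mul_one]
    · intro k; rw [pow_zero, mul_one]
  | succ m ih =>
    obtain ⟨W', i', H', f', U', C', κ', c', a', b', h1, h2, h3, h4, h5⟩ := ih
    obtain ⟨g, κ'', g1, g2⟩ := cfg_twin h1 c' a' b' h2
    refine ⟨Option W', inferInstance, twin H' a' b', g, some '' U', some '' C', κ'', none,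
      some a', some b', g1, g2, ?_, ?_, ?_⟩
    · rw [Set.ncard_image_of_injective _ (Option.some_injective _), h3]
    · intro k
      rw [twin_eq, h4, pow_succ]; ring
    · intro k
      rw [twin_ne, h5, pow_succ]; ring

theorem isChrom_of_cn {V : Type} [Fintype V] (G : SimpleGraph V) (p : ℝ[X])
    (h : ∀ k : ℕ, p.eval (k : ℝ) = cn G k (fun _ => True)) : IsChrom G p := by
  intro k
  rw [h k, ← cn_eval G (chr G) (chr_spec G) k]
  exact chr_spec G k

theorem pow_limit (α β q : ℝ) (hq : 4 < q)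
    (h : ∀ m : ℕ, 0 < α * (q - 1) ^ m + β * (q - 2) ^ m) : 0 ≤ α := by
  by_contra hα
  push Not at hα
  have hq2 : 0 < q - 2 := by linarith
  have hr : 1 < (q - 1) / (q - 2) := by
    rw [one_lt_div hq2]
    linarith
  obtain ⟨m, hm⟩ := pow_unbounded_of_one_lt (β / (-α)) hr
  have h1 := h m
  rw [div_lt_iff₀ (by linarith)] at hm
  have h2 : 0 < (q - 2) ^ m := pow_pos hq2 m
  rw [div_pow] at hm
  have h3 : β * (q - 2) ^ m < (q - 1) ^ m * (-α) := by
    have := mul_lt_mul_of_pos_right hm h2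
    have e : (q - 1) ^ m / (q - 2) ^ m * -α * (q - 2) ^ m = (q - 1) ^ m * -α := by
      field_simp
    linarith
  linarith

theorem ident_nonneg (q : ℝ) (hq : 4 < q) (n : ℕ) (IH : IHyp q n) {W : Type} [Fintype W]
    {H : SimpleGraph W} {f : W → ℝ × ℝ} {U C : Set W} {κ : W → Bool} (h : Cfg H f U C κ)
    (hn : C.ncard = n) (c a b : W) (t : TD H U C c a b) (α β : ℝ[X])
    (hα : ∀ k : ℕ, α.eval (k : ℝ) = cn H k (fun g => g a = g b))
    (hβ : ∀ k : ℕ, β.eval (k : ℝ) = cn H k (fun g => g a ≠ g b)) : 0 ≤ α.eval q := by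
  apply pow_limit _ (β.eval q) q hq
  intro m
  obtain ⟨W', i', H', f', U', C', κ', c', a', b', h1, h2, h3, h4, h5⟩ := twins_seq h c a b t m
  have key : IsChrom H' (α * (X - 1) ^ m + β * (X - Polynomial.C (2 : ℝ)) ^ m) := by
    apply isChrom_of_cn
    intro k
    rw [cn_split H' k a' b', h4, h5, ← hα, ← hβ]
    simp
  have := IH W' i' H' f' U' C' κ' h1 (h3.trans hn) _ key
  simpa using this

theorem gamma_exists (q : ℝ) (hq : 4 < q) (n : ℕ) (IH : IHyp q n) {V : Type} [Fintype V]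
    {G : SimpleGraph V} {f : V → ℝ × ℝ} {U C : Set V} {κ : V → Bool} (h : Cfg G f U C κ)
    (c : V) (hc : c ∈ C) (hn : (C \ {c}).ncard = n) (a b v : V) (ha : G.Adj c a) (hb : G.Adj c b)
    (hv : v ∉ U) (hcv : G.Adj c v) (hav : G.Adj a v) (hbv : G.Adj b v) :
    ∃ γ : ℝ[X], (∀ k : ℕ, γ.eval (k : ℝ) =
      ((k : ℝ) - 1) * cn (reN G c ∅) k (fun g => g a = g b)) ∧ 0 ≤ γ.eval q := by
  have haC : a ∉ C := fun e => h.indep c hc a e ha
  have hbC : b ∉ C := fun e => h.indep c hc b e hb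
  have hvC : v ∉ C := fun e => h.indep c hc v e hcv
  by_cases hab : a = b
  · subst hab
    obtain ⟨κ', hκ'⟩ := cfg_reN h c hc ∅ (fun x hx => absurd hx (Set.notMem_empty _)) true
      (fun x hx => absurd hx (Set.notMem_empty _))
    refine ⟨(X - 1) * chr (reN G c ∅), ?_, ?_⟩
    · intro k
      rw [eval_mul, cn_eval _ _ (chr_spec _) k]
      simp
    · rw [eval_mul]
      have h1 := IH V inferInstance _ f U _ κ' hκ' hn _ (chr_spec (reN G c ∅))
      have h2 : 0 ≤ (X - 1 : ℝ[X]).eval q := by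
        simp
        linarith
      exact mul_nonneg h2 h1.le
  · have hS : ∀ x ∈ ({a, b} : Set V), G.Adj c x := by
      intro x hx
      simp only [Set.mem_insert_iff, Set.mem_singleton_iff] at hx
      rcases hx with rfl | rfl
      · exact ha
      · exact hb
    obtain ⟨κ', hκ'⟩ := cfg_reN h c hc {a, b} hS (κ v) (by
      intro x hx hxU
      simp only [Set.mem_insert_iff, Set.mem_singleton_iff] at hx
      rcases hx with rfl | rfl
      · exact h.bip _ _ hav hxU haC hv hvC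
      · exact h.bip _ _ hbv hxU hbC hv hvC)
    have hcab : c ∉ ({a, b} : Set V) := by
      intro e
      exact G.loopless.irrefl c (hS c e)
    have t : TD (reN G c {a, b}) U (C \ {c}) c a b := by
      refine ⟨hab, ?_, fun e => h.disj c e hc, fun e => e.2 rfl, fun e => haC e.1,
        fun e => hbC e.1⟩
      intro x
      rw [reN_c G c {a, b} hcab x]
      simp
    refine ⟨X * (chr (reN G c {a, b}) - chr (addE (reN G c {a, b}) a b)), ?_, ?_⟩
    · intro k
      rw [eval_mul, eval_sub, eval_X, cn_eval _ _ (chr_spec _) k, cn_eval _ _ (chr_spec _) k,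
        cn_addE _ _ _ _ hab, cn_split (reN G c {a, b}) k a b, add_sub_cancel_right,
        id23 G c a b ha.ne.symm hb.ne.symm k]
    · rw [eval_mul, eval_X]
      refine mul_nonneg (by linarith) ?_
      refine ident_nonneg q hq n IH hκ' hn c a b t _ (chr (addE (reN G c {a, b}) a b)) ?_ ?_
      · intro k
        rw [eval_sub, cn_eval _ _ (chr_spec _) k, cn_eval _ _ (chr_spec _) k,
          cn_addE _ _ _ _ hab, cn_split (reN G c {a, b}) k a b, add_sub_cancel_right]
      · intro k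
        rw [cn_eval _ _ (chr_spec _) k, cn_addE _ _ _ _ hab]

theorem main_gt (q : ℝ) (hq : 4 < q) (n : ℕ) : IHyp q n := by
  induction n with
  | zero =>
    intro V _ G f U C κ h hC p hp
    have hC0 : C = ∅ := by
      rwa [Set.ncard_eq_zero (Set.toFinite C)] at hC
    exact cfg_base h hC0 p hp q hq.le
  | succ n IH =>
    intro V _ G f U C κ h hC p hp
    obtain ⟨c, hc⟩ : C.Nonempty := by
      rw [← Set.ncard_pos (Set.toFinite C)]
      omega
    have hn : (C \ {c}).ncard = n := by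
      rw [Set.ncard_sdiff_singleton_of_mem hc]
      omega
    obtain ⟨v1, v2, v3, v4, hN, h12, h23, h34, h41, hu1, hu2⟩ := h.link c hc
    have c1 : G.Adj c v1 := (hN v1).2 (by simp)
    have c2 : G.Adj c v2 := (hN v2).2 (by simp)
    have c3 : G.Adj c v3 := (hN v3).2 (by simp)
    have c4 : G.Adj c v4 := (hN v4).2 (by simp)
    obtain ⟨γ, hγ1, hγ2⟩ : ∃ γ : ℝ[X], (∀ k : ℕ, γ.eval (k : ℝ) =
        ((k : ℝ) - 1) * cn (reN G c ∅) k (fun g => g v1 = g v3)) ∧ 0 ≤ γ.eval q := by
      by_cases hv : v2 ∈ U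
      · have hv4 : v4 ∉ U := fun e => hu2 ⟨hv, e⟩
        exact gamma_exists q hq n IH h c hc hn v1 v3 v4 c1 c3 hv4 c4 h41.symm h34
      · exact gamma_exists q hq n IH h c hc hn v1 v3 v2 c1 c3 hv c2 h12 h23.symm
    obtain ⟨δ, hδ1, hδ2⟩ : ∃ γ : ℝ[X], (∀ k : ℕ, γ.eval (k : ℝ) =
        ((k : ℝ) - 1) * cn (reN G c ∅) k (fun g => g v2 = g v4)) ∧ 0 ≤ γ.eval q := by
      by_cases hv : v1 ∈ U
      · have hv3 : v3 ∉ U := fun e => hu1 ⟨hv, e⟩
        exact gamma_exists q hq n IH h c hc hn v2 v4 v3 c2 c4 hv3 c3 h23 h34.symm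
      · exact gamma_exists q hq n IH h c hc hn v2 v4 v1 c2 c4 hv c1 h12.symm h41
    obtain ⟨κ', hκ'⟩ := cfg_reN h c hc ∅ (fun x hx => absurd hx (Set.notMem_empty _)) true
      (fun x hx => absurd hx (Set.notMem_empty _))
    have h0 := IH V inferInstance _ f U _ κ' hκ' hn _ (chr_spec (reN G c ∅))
    have key : X * (X - 1) * p = (X - 1) * (X - Polynomial.C (4 : ℝ)) * chr (reN G c ∅) + γ + δ := by
      apply Polynomial.eq_of_infinite_eval_eq
      apply Set.infinite_of_injective_forall_mem (f := fun k : ℕ => (k : ℝ)) Nat.cast_injective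
      intro k
      change (X * (X - 1) * p).eval (k : ℝ) =
        ((X - 1) * (X - Polynomial.C (4 : ℝ)) * chr (reN G c ∅) + γ + δ).eval (k : ℝ)
      have h1 := id1 G c v1 v2 v3 v4 hN h12 h23 h34 h41 k
      rw [eval_add, eval_add, hγ1 k, hδ1 k]
      simp only [eval_mul, eval_sub, eval_X, eval_one, eval_C]
      rw [cn_eval G p hp k, cn_eval _ _ (chr_spec _) k]
      linear_combination ((k : ℝ) - 1) * h1
    have h2 := congrArg (fun r : ℝ[X] => r.eval q) key
    simp only [eval_mul, eval_sub, eval_X, eval_one, eval_C, eval_add] at h2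
    have h3 : 0 < (q - 1) * (q - 4) * (chr (reN G c ∅)).eval q :=
      mul_pos (mul_pos (by linarith) (by linarith)) h0
    have h4 : 0 < q * (q - 1) * p.eval q := by
      rw [h2]
      linarith
    exact (pos_iff_pos_of_mul_pos h4).1 (mul_pos (by linarith) (by linarith))

theorem cfg_four {V : Type} [Fintype V] {G : SimpleGraph V} {f : V → ℝ × ℝ} {U C : Set V}
    {κ : V → Bool} (h : Cfg G f U C κ) (p : ℝ[X]) (hp : IsChrom G p) : 0 < p.eval 4 := by
  classical
  have h4 := hp 4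
  have e : ((4 : ℕ) : ℝ) = 4 := by norm_num
  rw [e] at h4
  rw [h4]
  have : Nonempty (G.Coloring (Fin 4)) := by
    refine ⟨SimpleGraph.Coloring.mk
      (fun x => if x ∈ U then (2 : Fin 4) else if x ∈ C then 3 else if κ x then 0 else 1) ?_⟩
    intro x y hxy
    by_cases hx : x ∈ U
    · by_cases hy : y ∈ U
      · exact absurd (h.uniq hx hy) hxy.ne
      · by_cases hy' : y ∈ C
        · simp [hx, hy, hy']
        · by_cases hk : κ y <;> simp [hx, hy, hy', hk]
    · by_cases hx' : x ∈ C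
      · by_cases hy : y ∈ U
        · simp [hx, hx', hy]
        · by_cases hy' : y ∈ C
          · exact absurd hxy (h.indep x hx' y hy')
          · by_cases hk : κ y <;> simp [hx, hx', hy, hy', hk]
      · by_cases hy : y ∈ U
        · by_cases hk : κ x <;> simp [hx, hx', hy, hk]
        · by_cases hy' : y ∈ C
          · by_cases hk : κ x <;> simp [hx, hx', hy, hy', hk]
          · have := h.bip x y hxy hx hx' hy hy'
            cases hk : κ x <;> cases hk' : κ y <;> simp_all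
  have h5 : 0 < Nat.card (G.Coloring (Fin 4)) := by
    have : Finite (G.Coloring (Fin 4)) := by
      have : Function.Injective (fun (c : G.Coloring (Fin 4)) (v : V) => c v) := by
        intro c c' hcc
        ext v
        exact congrArg Fin.val (congrFun hcc v)
      exact Finite.of_injective _ this
    exact Nat.card_pos
  exact_mod_cast h5

theorem cfg_pos {V : Type} [Fintype V] {G : SimpleGraph V} {f : V → ℝ × ℝ} {U C : Set V}
    {κ : V → Bool} (h : Cfg G f U C κ) (p : ℝ[X]) (hp : IsChrom G p) (q : ℝ) (hq : 4 ≤ q) :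
    0 < p.eval q := by
  rcases hq.eq_or_lt with rfl | hq
  · exact cfg_four h p hp
  · exact main_gt q hq C.ncard V inferInstance G f U C κ h rfl p hp

end Pool.Agent.TH592.BL
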