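import Pool.Agent.TH592.BL.Geo

/-!
Straight line drawings: a twin of a vertex of degree two can be added.
-/

set_option autoImplicit false

namespace Pool.Agent.TH592.BL

open Polynomial Pool.Agent.H207R2.BL Pool.Agent.H110R3.BP

section tw

theorem twin_straight {W : Type} [Finite W] (H : SimpleGraph W) (f : W → ℝ × ℝ)
    (hf : IsStraight H f) (c a b : W) (hab : a ≠ b) (hN : ∀ x, H.Adj c x ↔ x = a ∨ x = b)
    (U : Set W) (hU : c ∉ U) (low : ∀ u ∈ U, ∀ v, v ≠ u → (f u).2 < (f v).2) :
    ∃ g : Option W → ℝ × ℝ, (∀ x, g (some x) = f x) ∧ IsStraight (twin H a b) g ∧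
      ∀ u ∈ U, (f u).2 < (g none).2 := by
  classical
  have hca : H.Adj c a := (hN a).2 (Or.inl rfl)
  have hcb : H.Adj c b := (hN b).2 (Or.inr rfl)
  have nca : c ≠ a := hca.ne
  have ncb : c ≠ b := hcb.ne
  obtain ⟨s1, s2, s3⟩ := hf
  obtain ⟨w, hwa, hwb⟩ := exists_dir (f c) (f a) (f b) (fun h => nca (s1 h).symm)
    (fun h => ncb (s1 h).symm) (fun h => hab (s1 h)) (s2 c a b hca) (s2 c b a hcb)
  have hw0 : w ≠ 0 := by
    rintro rfl
    simp [dt] at hwa
  obtain ⟨t0, ht0, hst⟩ := Pool.Agent.H110R3.BP2.straight_open f (fun v => if v = c then w else 0) ⟨s1, s2, s3⟩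
  -- lowness
  have hlow : ∃ t1 : ℝ, 0 < t1 ∧ ∀ t, 0 < t → t < t1 → ∀ u ∈ U, (f u).2 < (f c + t • w).2 := by
    by_cases hUe : ∃ u, u ∈ U
    · obtain ⟨u, hu⟩ := hUe
      have hcu : c ≠ u := fun h => hU (h ▸ hu)
      have hg : 0 < (f c).2 - (f u).2 := by
        have := low u hu c hcu
        linarith
      refine ⟨((f c).2 - (f u).2) / (|w.2| + 1), by positivity, ?_⟩
      intro t ht ht' u' hu'
      have huu : u' = u := by
        by_contra hne
        have h1 := low u hu u' hne
        have h2 := low u' hu' u (Ne.symm hne)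
        linarith
      subst huu
      rw [lt_div_iff₀ (by positivity)] at ht'
      simp only [Prod.snd_add, Prod.smul_snd, smul_eq_mul]
      have h1 : -(t * |w.2|) ≤ t * w.2 := by
        have := neg_abs_le w.2
        nlinarith
      nlinarith
    · refine ⟨1, one_pos, ?_⟩
      intro t _ _ u hu
      exact absurd ⟨u, hu⟩ hUe
  obtain ⟨t1, ht1, hlow⟩ := hlow
  set t := min t0 t1 / 2 with ht
  have htpos : 0 < t := by
    have := lt_min ht0 ht1
    positivity
  have htlt0 : t < t0 := by
    have := min_le_left t0 t1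
    have h0 := lt_min ht0 ht1
    linarith
  have htlt1 : t < t1 := by
    have := min_le_right t0 t1
    have h0 := lt_min ht0 ht1
    linarith
  obtain ⟨r1, r2, r3⟩ := hst t htpos htlt0
  set c' := f c + t • w with hc'
  have gc : (fun v => f v + t • (if v = c then w else 0 : ℝ × ℝ)) c = c' := by simp [hc']
  have gn : ∀ x, x ≠ c → (fun v => f v + t • (if v = c then w else 0 : ℝ × ℝ)) x = f x := by
    intro x hx
    simp [hx]
  have tw0 : t • w ≠ 0 := smul_ne_zero (ne_of_gt htpos) hw0
  have hcc : c' ≠ f c := by
    intro h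
    apply tw0
    have : f c + t • w = f c + 0 := by rw [← hc', h, add_zero]
    exact add_left_cancel this
  have L0 : dt w (f c - f c) = 0 := by simp [dt]
  have L1 : dt w (c' - f c) = 0 := by
    rw [hc']
    simp [dt]
    ring
  -- neighbours of c
  have sgn : ∀ x, H.Adj c x → dt w (f x - f c) ≠ 0 := by
    intro x hx
    rcases (hN x).1 hx with rfl | rfl
    · exact ne_of_gt hwa
    · exact ne_of_lt hwb
  have side : ∀ P : ℝ × ℝ, dt w (P - f c) = 0 → ∀ x, H.Adj c x → ∀ z ∈ openSegment ℝ P (f x),
      dt w (z - f c) ≠ 0 := by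
    intro P hP x hx z hz
    rcases (hN x).1 hx with rfl | rfl
    · exact ne_of_gt (seg_pos w P _ _ z hP hwa hz)
    · exact ne_of_lt (seg_neg w P _ _ z hP hwb hz)
  -- segments from the two centres to neighbours
  have dis : ∀ P Q : ℝ × ℝ, dt w (P - f c) = 0 → dt w (Q - f c) = 0 → P ≠ Q →
      ∀ x y, H.Adj c x → H.Adj c y → Disjoint (openSegment ℝ P (f x)) (openSegment ℝ Q (f y)) := by
    intro P Q hP hQ hPQ x y hx hy
    rcases (hN x).1 hx with rfl | rfl <;> rcases (hN y).1 hy with rfl | rfl
    · exact seg_two w P Q _ (f c) hP hQ (sgn _ hx) hPQ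
    · rw [Set.disjoint_left]
      intro z hz hz'
      have h1 := seg_pos w P _ _ z hP hwa hz
      have h2 := seg_neg w Q _ _ z hQ hwb hz'
      linarith
    · rw [Set.disjoint_left]
      intro z hz hz'
      have h1 := seg_neg w P _ _ z hP hwb hz
      have h2 := seg_pos w Q _ _ z hQ hwa hz'
      linarith
    · exact seg_two w P Q _ (f c) hP hQ (sgn _ hx) hPQ
  have dis2 : Disjoint (openSegment ℝ c' (f a)) (openSegment ℝ c' (f b)) := by
    rw [Set.disjoint_left]
    intro z hz hz'
    have h1 := seg_pos w c' _ _ z L1 hwa hz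
    have h2 := seg_neg w c' _ _ z L1 hwb hz'
    linarith
  -- the new vertex is different from the old ones
  have new_ne : ∀ x, c' ≠ f x := by
    intro x
    by_cases hx : x = c
    · rw [hx]; exact hcc
    · intro h
      apply hx
      apply r1
      rw [gc, gn x hx]
      exact h.symm
  -- new vertex and old edges
  have new_old : ∀ x y, H.Adj x y → c' ∉ openSegment ℝ (f x) (f y) := by
    intro x y hxy hz
    by_cases hx : x = c
    · subst hx
      exact side _ L0 y hxy _ hz L1
    · by_cases hy : y = c
      · subst hy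
        rw [openSegment_symm] at hz
        exact side _ L0 x hxy.symm _ hz L1
      · apply r2 x y c hxy
        rw [gc, gn x hx, gn y hy]
        exact hz
  -- old vertices and new edges
  have old_new : ∀ z x, H.Adj c x → f z ∉ openSegment ℝ c' (f x) := by
    intro z x hx hz
    by_cases hzc : z = c
    · subst hzc
      exact side _ L1 x hx _ hz L0
    · apply r2 c x z hx
      rw [gc, gn z hzc, gn x hx.ne.symm]
      exact hz
  -- new edges and old edges
  have new_edge : ∀ z x y, H.Adj c z → H.Adj x y →
      Disjoint (openSegment ℝ c' (f z)) (openSegment ℝ (f x) (f y)) := by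
    intro z x y hz hxy
    by_cases hx : x = c
    · subst hx
      exact dis _ _ L1 L0 hcc z y hz hxy
    · by_cases hy : y = c
      · subst hy
        rw [openSegment_symm ℝ (f x)]
        exact dis _ _ L1 L0 hcc z x hz hxy.symm
      · have h := r3 c z x y hz hxy (by
          intro h
          rcases Sym2.eq_iff.1 h with ⟨h1, h2⟩ | ⟨h1, h2⟩
          · exact hx h1.symm
          · exact hy h1.symm)
        rw [gc, gn z hz.ne.symm, gn x hx, gn y hy] at h
        exact h
  refine ⟨fun o => o.elim c' f, fun x => rfl, ⟨?_, ?_, ?_⟩, ?_⟩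
  · rintro (_ | x) (_ | y) h
    · rfl
    · exact absurd h (new_ne y)
    · exact absurd h.symm (new_ne x)
    · exact congrArg some (s1 h)
  · rintro (_ | x) (_ | y) (_ | z) h hz
    · exact (twin H a b).loopless.irrefl _ h
    · exact (twin H a b).loopless.irrefl _ h
    · exact new_ne y (left_mem_openSegment_iff.1 hz)
    · exact old_new z y ((hN y).2 ((twin_none H a b y).1 h)) hz
    · exact new_ne x (right_mem_openSegment_iff.1 hz).symm
    · have h' := (hN x).2 ((twin_none H a b x).1 h.symm)
      apply old_new z x h'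
      rw [openSegment_symm]
      exact hz
    · exact new_old x y ((twin_some H a b x y).1 h) hz
    · exact s2 x y z ((twin_some H a b x y).1 h) hz
  · have nn : ∀ x, (twin H a b).Adj none (some x) → H.Adj c x := fun x h =>
      (hN x).2 ((twin_none H a b x).1 h)
    have n2 : ∀ x y, (twin H a b).Adj none (some x) → (twin H a b).Adj none (some y) → x ≠ y →
        Disjoint (openSegment ℝ c' (f x)) (openSegment ℝ c' (f y)) := by
      intro x y hx hy hxy
      rcases (twin_none H a b x).1 hx with h1 | h1 <;>
        rcases (twin_none H a b y).1 hy with h2 | h2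
      · exact absurd (h1.trans h2.symm) hxy
      · rw [h1, h2]; exact dis2
      · rw [h1, h2]; exact dis2.symm
      · exact absurd (h1.trans h2.symm) hxy
    have sy : ∀ P Q : ℝ × ℝ, openSegment ℝ P Q = openSegment ℝ Q P := fun P Q =>
      openSegment_symm ℝ P Q
    rintro (_ | x) (_ | y) (_ | x') (_ | y') h h' hne
    · exact absurd h ((twin H a b).loopless.irrefl _)
    · exact absurd h ((twin H a b).loopless.irrefl _)
    · exact absurd h ((twin H a b).loopless.irrefl _)
    · exact absurd h ((twin H a b).loopless.irrefl _)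
    · exact absurd h' ((twin H a b).loopless.irrefl _)
    · exact n2 y y' h h' (fun e => hne (by rw [e]))
    · change Disjoint (openSegment ℝ c' (f y)) (openSegment ℝ (f x') c')
      rw [sy (f x') c']
      exact n2 y x' h h'.symm (fun e => hne (by rw [e, Sym2.eq_swap]))
    · exact new_edge y x' y' (nn y h) ((twin_some H a b x' y').1 h')
    · exact absurd h' ((twin H a b).loopless.irrefl _)
    · change Disjoint (openSegment ℝ (f x) c') (openSegment ℝ c' (f y'))
      rw [sy (f x) c']
      exact n2 x y' h.symm h' (fun e => hne (by rw [e, Sym2.eq_swap]))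
    · change Disjoint (openSegment ℝ (f x) c') (openSegment ℝ (f x') c')
      rw [sy (f x) c', sy (f x') c']
      exact n2 x x' h.symm h'.symm (fun e => hne (by rw [e]))
    · change Disjoint (openSegment ℝ (f x) c') (openSegment ℝ (f x') (f y'))
      rw [sy (f x) c']
      exact new_edge x x' y' (nn x h.symm) ((twin_some H a b x' y').1 h')
    · exact absurd h' ((twin H a b).loopless.irrefl _)
    · exact (new_edge y' x y (nn y' h') ((twin_some H a b x y).1 h)).symm
    · change Disjoint (openSegment ℝ (f x) (f y)) (openSegment ℝ (f x') c')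
      rw [sy (f x') c']
      exact (new_edge x' x y (nn x' h'.symm) ((twin_some H a b x y).1 h)).symm
    · refine s3 x y x' y' ((twin_some H a b x y).1 h) ((twin_some H a b x' y').1 h') (fun e => hne ?_)
      rcases Sym2.eq_iff.1 e with ⟨h1, h2⟩ | ⟨h1, h2⟩
      · rw [h1, h2]
      · rw [h1, h2, Sym2.eq_swap]
  · intro u hu
    exact hlow t htpos htlt1 u hu

end tw

end Pool.Agent.TH592.BL
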